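import Mathlib
import Pool.Agent.Helper11.Can.Defs
import Pool.Agent.Helper10.GIT.Valuation

/-!
# CAN-L10: optimal weights over the algebraic closure remain optimal over larger fields
-/

universe u v t

open Finset Matrix

namespace Pool.Agent.Helper11.Can

open Pool.Agent.Helper10.GIT Pool.Agent.Helper11.GIT

variable {P : ℕ} {d : Fin P → ℕ}

namespace L10

/-- the support does not change when one passes to a larger field -/
lemma suppW_map {K : Type v} [Field K] {K' : Type u} [Field K'] [Algebra K K'] {κ : Type t}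
    [Field κ] [Algebra K κ] (j : K' →+* κ)
    (hj : ∀ a : K, j (algebraMap K K' a) = algebraMap K κ a) (h : Mats d K') (A : Family d K) :
    suppW (fun c => (h c).map j) (ext κ A) = suppW h (ext K' A) := by
  have key : ∀ (χ : Shape P) (z : Ten d K χ) (w : Word d χ),
      act (sh (fun c => (h c).map j) χ) (emb κ z) w = j (act (sh h χ) (emb K' z) w) := by
    intro χ z w
    have h1 := congrFun (act_map j (sh h χ) (emb K' z)) w
    have h2 : (fun w' => j (emb K' z w')) = emb κ z := by
      funext w'
      exact hj _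
    rw [h2] at h1
    exact h1
  ext w
  constructor
  · rintro ⟨_, ⟨z, hz, rfl⟩, hne⟩
    refine ⟨_, ⟨z, hz, rfl⟩, fun h0 => hne ?_⟩
    rw [key, h0, map_zero]
  · rintro ⟨_, ⟨z, hz, rfl⟩, hne⟩
    refine ⟨_, ⟨z, hz, rfl⟩, fun h0 => hne ?_⟩
    rw [key] at h0
    exact (map_eq_zero j).mp h0

end L10

/-- CAN-L10: optimal weights over the algebraic closure remain optimal over larger fields -/
theorem optimal_map {K : Type v} [Field K] {κ : Type t} [Field κ] [Algebra K κ]
    (hspec : ∀ h : Mats d κ, (∀ c, (h c).det ≠ 0) →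
      ∃ h' : Mats d (AlgebraicClosure K), (∀ c, (h' c).det ≠ 0) ∧
        ∀ A : Family d K, suppW h' (ext (AlgebraicClosure K) A) ⊆ suppW h (ext κ A))
    (j : AlgebraicClosure K →+* κ) (hj : ∀ a : K, j (algebraMap K _ a) = algebraMap K κ a)
    {A N : Family d K} {h : Mats d (AlgebraicClosure K)} {γ : WSpace d}
    (ho : Optimal (ext (AlgebraicClosure K) A) (ext (AlgebraicClosure K) N) h γ) :
    Optimal (ext κ A) (ext κ N) (fun c => (h c).map j) γ := by
  obtain ⟨hA, hmin⟩ := ho
  refine ⟨⟨fun c => ?_, hA.sum, fun w hw => ?_, fun w hw => ?_⟩, fun h' γ' h1 => ?_⟩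
  · have h1 : ((h c).map j).det = j (h c).det := (RingHom.map_det j (h c)).symm
    rw [h1]
    exact (map_ne_zero j).mpr (hA.det c)
  · rw [L10.suppW_map j hj] at hw
    exact hA.nonneg w hw
  · rw [L10.suppW_map j hj] at hw
    exact hA.one_le w hw
  · obtain ⟨h'', hdet, hsub⟩ := hspec h' h1.det
    exact hmin h'' γ' ⟨hdet, h1.sum, fun w hw => h1.nonneg w (hsub A hw),
      fun w hw => h1.one_le w (hsub N hw)⟩

end Pool.Agent.Helper11.Can
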