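import Mathlib
import Pool.Agent.Helper11.Can.Coh

/-!
# CAN-C1: products of finitely many morphisms, traces of external products
-/

universe u v w t

open CategoryTheory Finset

namespace Pool.Agent.Helper11.Can

open Pool.Agent.Helper10 hiding IsAlgAut parityPart
open SmProjVar SPre Pool.Agent.Helper10.GIT Pool.Agent.Helper11.Iso

section coh

variable {k : Type u} [Field k] {K : Type t} [Field K] {Ω : Type v} [Field Ω] [Algebra K Ω]
  {S : SPre.{u, v, w, t} k K Ω} {P : ℕ} {d : Fin P → ℕ} {V : Fin P → SmProjVar k}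

/-- CAN-C1: products of finitely many morphisms `p r : T r → X r`. -/
theorem exists_prodT {𝒳 : SmProjVar k → Prop} (h𝒳 : ∀ X Y, 𝒳 X → 𝒳 Y → 𝒳 (X.prod Y)) {s : ℕ}
    (T X : Fin (s + 1) → SmProjVar k) (hX : ∀ r, 𝒳 (X r))
    (p : ∀ r, (T r).toOver ⟶ (X r).toOver) :
    ∃ (T' X' : SmProjVar k) (π : ∀ r, T'.toOver ⟶ (T r).toOver) (q : T'.toOver ⟶ X'.toOver),
      𝒳 X' ∧ (∀ y : ∀ r, S.H (T r),
        S.tr T' (List.ofFn fun r => S.pull (π r) (y r)).prod = ∏ r, S.tr (T r) (y r)) ∧
      ∀ x : ∀ r, S.H (X r), ∃ x' : S.H X',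
        (List.ofFn fun r => S.pull (π r) (S.pull (p r) (x r))).prod = S.pull q x' := by
  induction s with
  | zero =>
    let π : ∀ r, (T 0).toOver ⟶ (T r).toOver :=
      Fin.cases (motive := fun r => (T 0).toOver ⟶ (T r).toOver) (𝟙 (T 0).toOver)
        (fun i => i.elim0)
    have hπ : π 0 = 𝟙 (T 0).toOver := rfl
    refine ⟨T 0, X 0, π, p 0, hX 0, fun y => ?_, fun x => ⟨x 0, ?_⟩⟩
    · rw [List.ofFn_succ, List.ofFn_zero, List.prod_cons, List.prod_nil, mul_one, hπ, S.pull_id,
        AlgHom.id_apply, Fin.prod_univ_succ, Finset.univ_eq_empty, Finset.prod_empty, mul_one]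
    · rw [List.ofFn_succ, List.ofFn_zero, List.prod_cons, List.prod_nil, mul_one, hπ, S.pull_id,
        AlgHom.id_apply]
  | succ s ih =>
    obtain ⟨T₀, X₀, π₀, q₀, hX₀, htr, hx⟩ := ih (fun i => T i.castSucc) (fun i => X i.castSucc)
      (fun i => hX _) (fun i => p i.castSucc)
    let π : ∀ r, (T₀.prod (T (Fin.last (s + 1)))).toOver ⟶ (T r).toOver :=
      Fin.lastCases (motive := fun r => (T₀.prod (T (Fin.last (s + 1)))).toOver ⟶ (T r).toOver)
        (snd _ _) (fun i => fst _ _ ≫ π₀ i)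
    have h1 : π (Fin.last (s + 1)) = snd _ _ := Fin.lastCases_last
    have h2 : ∀ i : Fin (s + 1), π i.castSucc = fst _ _ ≫ π₀ i := fun i =>
      Fin.lastCases_castSucc (i := i)
    have key : ∀ y : ∀ r, S.H (T r), (List.ofFn fun r => S.pull (π r) (y r)).prod =
        S.pull (fst _ _) (List.ofFn fun r => S.pull (π₀ r) (y r.castSucc)).prod *
          S.pull (snd _ _) (y (Fin.last (s + 1))) := by
      intro y
      rw [List.ofFn_succ', List.concat_eq_append, List.prod_append, List.prod_singleton, h1,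
        map_list_prod, List.map_ofFn]
      congr 3
      funext i
      rw [h2, S.pull_comp]
      rfl
    refine ⟨_, X₀.prod (X (Fin.last (s + 1))), π,
      lift (fst _ _ ≫ q₀) (snd _ _ ≫ p (Fin.last (s + 1))), h𝒳 _ _ hX₀ (hX _), fun y => ?_,
      fun x => ?_⟩
    · rw [key, S.tr_prod, htr fun i => y i.castSucc]
      exact (Fin.prod_univ_castSucc fun r => S.tr (T r) (y r)).symm
    · obtain ⟨x₀, hx₀⟩ := hx fun i => x i.castSucc
      refine ⟨S.pull (fst _ _) x₀ * S.pull (snd _ _) (x (Fin.last (s + 1))), ?_⟩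
      rw [key fun r => S.pull (p r) (x r), hx₀, map_mul]
      simp only [← AlgHom.comp_apply, ← S.pull_comp]
      rw [lift_fst, lift_snd]

end coh

end Pool.Agent.Helper11.Can
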